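import Pool.Agent.Run7.h275.RB0
import Pool.Agent.Run7.h275.RLJ

/-!
# Project RB (helper275), pieces J0F and J0Z (helper704)

Finitely generated domains over a perfect field, or over the integers, are regular on a nonempty open set.
-/

set_option autoImplicit false
set_option linter.all false

namespace Pool.Agent.Run7.h704.RB

open IsLocalRing Pool.Agent.W418.LU2 Pool.Agent.Run7.h275.RL Pool.Agent.Run7.h275.RB

/-- A derivation maps the square of an ideal into the ideal. -/
theorem der_sq {k₀ S : Type} [CommRing k₀] [CommRing S] [Algebra k₀ S] (D : Derivation k₀ S S)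
    (Q : Ideal S) {x : S} (hx : x ∈ Q ^ 2) : D x ∈ Q := by
  rw [pow_two] at hx
  refine Submodule.mul_induction_on hx ?_ ?_
  · intro a ha b hb
    rw [Derivation.leibniz, smul_eq_mul, smul_eq_mul]
    exact Q.add_mem (Q.mul_mem_right _ ha) (Q.mul_mem_right _ hb)
  · intro a b ha hb
    rw [map_add]
    exact Q.add_mem ha hb

/-- If the Jacobian minor is not in `Q` then the equations are independent modulo the square of the maximal ideal. -/
theorem ind_of_jac {k₀ S : Type} [CommRing k₀] [CommRing S] [Algebra k₀ S] (Q : Ideal S) [Q.IsPrime]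
    {r : ℕ} (f : Fin r → S) (D : Fin r → Derivation k₀ S S) (hf : ∀ i, f i ∈ Q)
    (hdet : (Matrix.of fun i j => D j (f i)).det ∉ Q) :
    Ind (fun i => algebraMap S (Localization.AtPrime Q) (f i)) := by
  classical
  set A := Localization.AtPrime Q with hA
  have hmem : ∀ a : S, algebraMap S A a ∈ maximalIdeal A ↔ a ∈ Q := fun a =>
    IsLocalization.AtPrime.to_map_mem_maximal_iff A Q a
  refine ⟨fun i => (hmem _).2 (hf i), ?_⟩
  intro c hc i
  -- common denominator
  obtain ⟨u, hu⟩ := IsLocalization.exist_integer_multiples_of_finite Q.primeCompl c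
  choose a ha using hu
  have hau : ∀ i, algebraMap S A (a i) = algebraMap S A u * c i := by
    intro i
    rw [ha i, Algebra.smul_def]
  have h1 : algebraMap S A (∑ i, a i * f i) ∈ maximalIdeal A ^ 2 := by
    have h2 : algebraMap S A (∑ i, a i * f i) = algebraMap S A u * ∑ i, c i * algebraMap S A (f i) := by
      rw [map_sum, Finset.mul_sum]
      refine Finset.sum_congr rfl fun i _ => ?_
      rw [map_mul, hau i, mul_assoc]
    rw [h2]
    exact Ideal.mul_mem_left _ _ hc
  rw [← IsLocalization.AtPrime.map_eq_maximalIdeal Q A, ← Ideal.map_pow] at h1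
  obtain ⟨⟨⟨y, hy⟩, v⟩, hyv⟩ := (IsLocalization.mem_map_algebraMap_iff Q.primeCompl A).1 h1
  change algebraMap S A (∑ i, a i * f i) * algebraMap S A (v : S) = algebraMap S A y at hyv
  rw [← map_mul] at hyv
  obtain ⟨w, hw⟩ := (IsLocalization.eq_iff_exists Q.primeCompl A).1 hyv
  set b : Fin r → S := fun i => w * v * a i with hb
  have h3 : ∑ i, b i * f i ∈ Q ^ 2 := by
    have : ∑ i, b i * f i = w * y := by
      rw [← hw, Finset.sum_mul, Finset.mul_sum]
      refine Finset.sum_congr rfl fun i _ => ?_
      simp only [hb]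
      ring
    rw [this]
    exact Ideal.mul_mem_left _ _ hy
  have h4 : ∀ j, ∑ i, b i * D j (f i) ∈ Q := by
    intro j
    have h5 := der_sq (D j) Q h3
    rw [map_sum] at h5
    have h6 : ∑ i, (D j) (b i * f i) = ∑ i, b i * D j (f i) + ∑ i, f i * D j (b i) := by
      rw [← Finset.sum_add_distrib]
      refine Finset.sum_congr rfl fun i _ => ?_
      rw [Derivation.leibniz, smul_eq_mul, smul_eq_mul]
    rw [h6] at h5
    have h7 : ∑ i, f i * D j (b i) ∈ Q := Q.sum_mem fun i _ => Q.mul_mem_right _ (hf i)
    exact (Q.add_mem_iff_left h7).1 h5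
  set M : Matrix (Fin r) (Fin r) S := Matrix.of fun i j => D j (f i) with hM
  have h8 : ∀ i, b i * M.det ∈ Q := by
    intro i
    have h9 : Matrix.vecMul (Matrix.vecMul b M) M.adjugate = M.det • b := by
      rw [Matrix.vecMul_vecMul, Matrix.mul_adjugate, Matrix.vecMul_smul, Matrix.vecMul_one]
    have h10 := congrFun h9 i
    rw [Pi.smul_apply, smul_eq_mul, mul_comm] at h10
    rw [← h10]
    unfold Matrix.vecMul dotProduct
    refine Q.sum_mem fun j _ => Q.mul_mem_right _ ?_
    exact h4 j
  have h11 : b i ∈ Q := (Ideal.IsPrime.mem_or_mem ‹_› (h8 i)).resolve_right hdet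
  have h12 : a i ∈ Q := by
    simp only [hb] at h11
    refine (Ideal.IsPrime.mem_or_mem ‹_› h11).resolve_left ?_
    exact fun h => (Ideal.IsPrime.mem_or_mem ‹_› h).elim w.2 v.2
  have h13 : algebraMap S A u * c i ∈ maximalIdeal A := by
    rw [← hau i]
    exact (hmem _).2 h12
  refine (Ideal.IsPrime.mem_or_mem (maximalIdeal.isMaximal A).isPrime h13).resolve_left ?_
  rw [hmem]
  exact u.2

/-- The general statement. -/
theorem gen (k₀ : Type) [CommRing k₀] [IsRegularRing k₀] (B : Type) [CommRing B] [IsDomain B]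
    [Algebra k₀ B] (hft : Algebra.FiniteType k₀ B)
    (hK : Subsingleton (Algebra.H1Cotangent k₀ (FractionRing B))) :
    ∃ t : B, t ≠ 0 ∧ ∀ (q : Ideal B) [q.IsPrime], t ∉ q → IsRegularLocalRing (Localization.AtPrime q) := by
  classical
  obtain ⟨n, g, hg⟩ := Algebra.FiniteType.iff_quotient_mvPolynomial''.1 hft
  set S := MvPolynomial (Fin n) k₀ with hS
  let K := FractionRing B
  letI : Algebra S K := ((algebraMap B K).comp g.toRingHom).toAlgebra
  haveI : @IsScalarTower k₀ S K Algebra.toSMul Algebra.toSMul Algebra.toSMul := IsScalarTower.of_algebraMap_eq (R := k₀) (S := S) (A := K) fun x => by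
    show algebraMap k₀ K x = algebraMap B K (g (algebraMap k₀ S x))
    rw [g.commutes]
    exact IsScalarTower.algebraMap_apply k₀ B K x
  have hSK : ∀ s : S, algebraMap S K s = algebraMap B K (g s) := fun s => rfl
  have hBK : Function.Injective (algebraMap B K) := IsFractionRing.injective B K
  have hfr : ∀ z : K, ∃ a b : S, algebraMap S K b ≠ 0 ∧ z * algebraMap S K b = algebraMap S K a := by
    intro z
    obtain ⟨a, b, hb, rfl⟩ := IsFractionRing.div_surjective (A := B) z
    obtain ⟨a', rfl⟩ := hg a
    obtain ⟨b', rfl⟩ := hg b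
    have hb' : algebraMap B K (g b') ≠ 0 := fun h => nonZeroDivisors.ne_zero hb (hBK (by rw [h, map_zero]))
    exact ⟨a', b', hb', by rw [hSK, hSK, div_mul_cancel₀ _ hb']⟩
  obtain ⟨r, f, D, hf, hgen, hdet⟩ := exists_jac (k₀ := k₀) (S := S) (K := K) hK hfr
  have hf0 : ∀ i, g (f i) = 0 := fun i => hBK (by rw [map_zero, ← hSK, hf i])
  -- one denominator for all the equations
  obtain ⟨t₀, ht₀, ht⟩ : ∃ t₀ : S, g t₀ ≠ 0 ∧ ∀ s, g s = 0 → t₀ * s ∈ Ideal.span (Set.range f) := by
    have hfg : (RingHom.ker g.toRingHom).FG := IsNoetherian.noetherian _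
    obtain ⟨G, hG⟩ := hfg
    have hG0 : ∀ s ∈ G, g s = 0 := fun s hs => by
      have : s ∈ RingHom.ker g.toRingHom := by
        rw [← hG]
        exact Submodule.subset_span hs
      exact this
    have hex : ∀ s : S, ∃ t : S, g s = 0 → g t ≠ 0 ∧ t * s ∈ Ideal.span (Set.range f) := by
      intro s
      by_cases h : g s = 0
      · obtain ⟨t, h1, h2⟩ := hgen s (by rw [hSK, h, map_zero])
        exact ⟨t, fun _ => ⟨fun h3 => h1 (by rw [hSK, h3, map_zero]), h2⟩⟩
      · exact ⟨0, fun h' => absurd h' h⟩
    choose t ht using hex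
    refine ⟨∏ s ∈ G, t s, ?_, ?_⟩
    · rw [map_prod]
      exact Finset.prod_ne_zero_iff.2 fun s hs => (ht s (hG0 s hs)).1
    · intro s hs
      have h1 : s ∈ Ideal.span (G : Set S) := by
        rw [hG]
        exact hs
      refine Submodule.span_induction (p := fun s _ => (∏ s ∈ G, t s) * s ∈ Ideal.span (Set.range f))
        ?_ ?_ ?_ ?_ h1
      · intro x hx
        rw [← Finset.mul_prod_erase G t hx, mul_comm (t x), mul_assoc]
        exact Ideal.mul_mem_left _ _ (ht x (hG0 x hx)).2
      · rw [mul_zero]
        exact Ideal.zero_mem _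
      · intro x y _ _ hx hy
        rw [mul_add]
        exact Ideal.add_mem _ hx hy
      · intro a x _ hx
        rw [smul_eq_mul, mul_left_comm]
        exact Ideal.mul_mem_left _ _ hx
  set δ : S := (Matrix.of fun i j => D j (f i)).det with hδ
  have hδ0 : g δ ≠ 0 := by
    intro h
    apply hdet
    have h1 : algebraMap S K δ = 0 := by rw [hSK, h, map_zero]
    rw [hδ, RingHom.map_det] at h1
    exact h1
  refine ⟨g (t₀ * δ), ?_, ?_⟩
  · rw [map_mul]
    exact mul_ne_zero ht₀ hδ0
  intro q hq htq
  set Q : Ideal S := q.comap g.toRingHom with hQ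
  haveI : Q.IsPrime := Ideal.comap_isPrime _ _
  have hQm : ∀ s : S, s ∈ Q ↔ g s ∈ q := fun s => Iff.rfl
  have ht₀q : g t₀ ∉ q := fun h => htq (by rw [map_mul]; exact q.mul_mem_right _ h)
  have hδq : g δ ∉ q := fun h => htq (by rw [map_mul]; exact q.mul_mem_left _ h)
  have hind := ind_of_jac Q f D (fun i => by rw [hQm, hf0 i]; exact q.zero_mem) hδq
  haveI : IsRegularLocalRing (Localization.AtPrime Q) := IsRegularRing.isRegularLocalRing_localization Q
  have hreg := hind.regular
  -- the local ring of `B`
  let ψ : Localization.AtPrime Q →+* Localization.AtPrime q := Localization.localRingHom Q q g.toRingHom rfl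
  have hψ : ∀ s : S, ψ (algebraMap S _ s) = algebraMap B (Localization.AtPrime q) (g s) := fun s =>
    Localization.localRingHom_to_map Q q g.toRingHom rfl s
  have hψs : Function.Surjective ψ := by
    intro z
    obtain ⟨b, s, rfl⟩ := IsLocalization.exists_mk'_eq q.primeCompl z
    obtain ⟨b', rfl⟩ := hg b
    obtain ⟨s', hs'⟩ := hg (s : B)
    have hs'Q : s' ∉ Q := by
      rw [hQm, hs']
      exact s.2
    refine ⟨IsLocalization.mk' _ b' (⟨s', hs'Q⟩ : Q.primeCompl), ?_⟩
    have h1 := Localization.localRingHom_mk' Q q g.toRingHom rfl b' ⟨s', hs'Q⟩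
    refine h1.trans ?_
    congr 1
    exact Subtype.ext hs'
  have hker : RingHom.ker ψ =
      Ideal.span (Set.range fun i => algebraMap S (Localization.AtPrime Q) (f i)) := by
    apply le_antisymm
    · intro z hz
      obtain ⟨a, s, rfl⟩ := IsLocalization.exists_mk'_eq Q.primeCompl z
      have h1 : ψ (algebraMap S _ a) = 0 := by
        rw [← IsLocalization.mk'_spec (Localization.AtPrime Q) a s, map_mul, RingHom.mem_ker.1 hz, zero_mul]
      rw [hψ] at h1
      have h2 : g a = 0 := by
        have hinj : Function.Injective (algebraMap B (Localization.AtPrime q)) :=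
          IsLocalization.injective _ q.primeCompl_le_nonZeroDivisors
        exact hinj (by rw [h1, map_zero])
      have h3 := ht a h2
      have h4 : algebraMap S (Localization.AtPrime Q) (t₀ * a) ∈
          Ideal.span (Set.range fun i => algebraMap S (Localization.AtPrime Q) (f i)) := by
        have h5 := Ideal.mem_map_of_mem (algebraMap S (Localization.AtPrime Q)) h3
        rw [Ideal.map_span, ← Set.range_comp] at h5
        exact h5
      have h6 : IsUnit (algebraMap S (Localization.AtPrime Q) t₀) :=
        IsLocalization.map_units _ (⟨t₀, ht₀q⟩ : Q.primeCompl)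
      rw [map_mul, Ideal.unit_mul_mem_iff_mem _ h6] at h4
      rw [← IsLocalization.mk'_mul_cancel_right (S := Localization.AtPrime Q) a s] at h4
      have h7 : IsUnit (algebraMap S (Localization.AtPrime Q) (s : S)) := IsLocalization.map_units _ s
      have h8 : IsLocalization.mk' (Localization.AtPrime Q) a s *
          algebraMap S (Localization.AtPrime Q) (s : S) = algebraMap S (Localization.AtPrime Q) a :=
        IsLocalization.mk'_spec _ a s
      have h9 : algebraMap S (Localization.AtPrime Q) a ∈
          Ideal.span (Set.range fun i => algebraMap S (Localization.AtPrime Q) (f i)) := by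
        rw [IsLocalization.mk'_mul_cancel_right] at h4
        exact h4
      rw [← h8] at h9
      exact (Ideal.mul_unit_mem_iff_mem _ h7).1 h9
    · rw [Ideal.span_le]
      rintro _ ⟨i, rfl⟩
      show ψ _ = 0
      rw [hψ, hf0 i, map_zero]
  haveI := hreg
  exact IsRegularLocalRing.of_ringEquiv
    (R := Localization.AtPrime Q ⧸ Ideal.span (Set.range fun i => algebraMap S (Localization.AtPrime Q) (f i)))
    ((Ideal.quotEquivOfEq hker.symm).trans (RingHom.quotientKerEquivOfSurjective hψs))

theorem J0F : S_J0F := by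
  intro k _ _ B _ _ _ hft
  haveI := hft
  haveI : Algebra.EssFiniteType k (FractionRing B) := inferInstance
  haveI : Algebra.FormallySmooth k (FractionRing B) := inferInstance
  exact gen k B hft inferInstance

theorem fs_int (K : Type) [Field K] [CharZero K] (i : Algebra ℤ K) (h : Algebra.EssFiniteType ℤ K) :
    Algebra.FormallySmooth ℤ K := by
  obtain rfl : i = Ring.toIntAlgebra K := Subsingleton.elim _ _
  haveI : IsScalarTower ℤ ℚ K := inferInstance
  haveI : Algebra.EssFiniteType ℚ K := Algebra.EssFiniteType.of_comp ℤ ℚ K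
  haveI : Algebra.FormallySmooth ℚ K := inferInstance
  haveI : Algebra.FormallySmooth ℤ ℚ := Algebra.FormallySmooth.of_isLocalization (nonZeroDivisors ℤ)
  exact Algebra.FormallySmooth.comp ℤ ℚ K

theorem J0Z : S_J0Z := by
  intro hJ B _ _ _ hft
  haveI := hft
  obtain ⟨p, hp⟩ := CharP.exists B
  rcases CharP.char_is_prime_or_zero B p with hpp | rfl
  · haveI : Fact p.Prime := ⟨hpp⟩
    letI : Algebra (ZMod p) B := ZMod.algebra B p
    have h1 : (algebraMap ℤ B).FiniteType := RingHom.finiteType_algebraMap.2 hft
    have h2 : (algebraMap (ZMod p) B).comp (Int.castRingHom (ZMod p)) = algebraMap ℤ B :=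
      RingHom.ext_int _ _
    rw [← h2] at h1
    have h3 : (algebraMap (ZMod p) B).FiniteType := RingHom.FiniteType.of_comp_finiteType h1
    exact hJ (ZMod p) B (RingHom.finiteType_algebraMap.1 h3)
  · haveI : CharZero B := CharP.charP_to_charZero B
    haveI : CharZero (FractionRing B) :=
      charZero_of_injective_algebraMap (IsFractionRing.injective B (FractionRing B))
    haveI : Algebra.FormallySmooth ℤ (FractionRing B) := fs_int (FractionRing B) _ inferInstance
    exact gen ℤ B hft inferInstance

end Pool.Agent.Run7.h704.RB
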